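import Pool.Agent.Helper38.IA.St

/-!
# Project IA, part M: averaging of the potential (StM3)
-/

set_option autoImplicit false

namespace Pool.Agent.Helper9.IA38

open Finset Pool.Agent.Helper93.IA Pool.Agent.Helper38.IA

theorem hM3 : StM3 := by
  intro X ι _ _ _ P S i0 B R μ h hR hi0 h1 h2 h3
  have hRpos : (0 : ℝ) < R := by exact_mod_cast hR
  have hRc : (R : ℝ) * (1 + (μ : ℝ) / R) = R + μ := by
    field_simp
  have hc1 : (1 : ℝ) ≤ 1 + (μ : ℝ) / R := by
    have : (0 : ℝ) ≤ (μ : ℝ) / R := by positivity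
    linarith
  generalize (1 + (μ : ℝ) / R) = c at hRc hc1 ⊢
  have hc0 : (0 : ℝ) ≤ c := by linarith
  have key : ∀ i ∈ univ \ insert i0 S, ∀ x ∈ P i,
      ∑ s : Fin R, (2 : ℝ) ^ (B i x + h s i x)
          * c ^ ((univ \ insert i0 S).filter fun j => j ≠ i ∧ x ∈ P j).card
        ≤ R * (2 ^ B i x * c ^ ((univ \ S).filter fun j => j ≠ i ∧ x ∈ P j).card) := by
    intro i hi x hx
    have hi' : i ∉ insert i0 S := (mem_sdiff.1 hi).2
    have hne : i0 ≠ i := fun e => hi' (e ▸ mem_insert_self _ _)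
    have e1 : ∀ F : ℕ, ∑ s : Fin R, (2 : ℝ) ^ (B i x + h s i x) * c ^ F
        = 2 ^ B i x * c ^ F * (R + ∑ s : Fin R, (h s i x : ℝ)) := by
      intro F
      have e2 : ∀ s : Fin R, (2 : ℝ) ^ (B i x + h s i x) * c ^ F
          = 2 ^ B i x * c ^ F * (1 + (h s i x : ℝ)) := by
        intro s
        rcases Nat.le_one_iff_eq_zero_or_eq_one.1 (h1 s i x) with e | e
        · rw [e]
          simp
        · rw [e, pow_succ]
          push_cast
          ring
      rw [sum_congr rfl (fun s _ => e2 s), ← mul_sum, sum_add_distrib]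
      simp
    have hp : (0 : ℝ) ≤ 2 ^ B i x *
        c ^ ((univ \ insert i0 S).filter fun j => j ≠ i ∧ x ∈ P j).card := by positivity
    rw [e1]
    by_cases hxi : x ∈ P i0
    · have hF : ((univ \ S).filter fun j => j ≠ i ∧ x ∈ P j)
          = insert i0 ((univ \ insert i0 S).filter fun j => j ≠ i ∧ x ∈ P j) := by
        ext j
        simp only [mem_filter, mem_sdiff, mem_univ, true_and, mem_insert, not_or]
        constructor
        · rintro ⟨a1, a2, a3⟩
          by_cases hj : j = i0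
          · exact Or.inl hj
          · exact Or.inr ⟨⟨hj, a1⟩, a2, a3⟩
        · rintro (a | ⟨⟨_, a1⟩, a2, a3⟩)
          · rw [a]
            exact ⟨hi0, hne, hxi⟩
          · exact ⟨a1, a2, a3⟩
      have hnot : i0 ∉ ((univ \ insert i0 S).filter fun j => j ≠ i ∧ x ∈ P j) := by
        simp
      rw [hF, card_insert_of_notMem hnot, pow_succ]
      have hs : ∑ s : Fin R, (h s i x : ℝ) ≤ μ := by
        exact_mod_cast h3 i hi' x hx hxi
      calc _ ≤ 2 ^ B i x * c ^ ((univ \ insert i0 S).filter fun j => j ≠ i ∧ x ∈ P j).card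
              * (R + μ) := mul_le_mul_of_nonneg_left (by linarith) hp
        _ = _ := by
          rw [← hRc]
          ring
    · have hF : ((univ \ S).filter fun j => j ≠ i ∧ x ∈ P j)
          = ((univ \ insert i0 S).filter fun j => j ≠ i ∧ x ∈ P j) := by
        ext j
        simp only [mem_filter, mem_sdiff, mem_univ, true_and, mem_insert, not_or]
        constructor
        · rintro ⟨a1, a2, a3⟩
          exact ⟨⟨fun e => hxi (e ▸ a3), a1⟩, a2, a3⟩
        · rintro ⟨⟨_, a1⟩, a2, a3⟩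
          exact ⟨a1, a2, a3⟩
      have hs : ∑ s : Fin R, (h s i x : ℝ) = 0 := by
        refine sum_eq_zero fun s _ => ?_
        rw [h2 s i x hxi]
        simp
      rw [hF, hs, add_zero]
      exact le_of_eq (by ring)
  unfold Ph
  rw [sum_comm]
  have e3 : ∀ i ∈ univ \ insert i0 S, ∑ s : Fin R, ∑ x ∈ P i, (2 : ℝ) ^ (B i x + h s i x)
          * c ^ ((univ \ insert i0 S).filter fun j => j ≠ i ∧ x ∈ P j).card
        ≤ R * ∑ x ∈ P i, (2 : ℝ) ^ B i x * c ^ ((univ \ S).filter fun j => j ≠ i ∧ x ∈ P j).card := by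
    intro i hi
    rw [sum_comm, mul_sum]
    exact sum_le_sum fun x hx => key i hi x hx
  refine (sum_le_sum e3).trans ?_
  rw [← mul_sum]
  refine mul_le_mul_of_nonneg_left ?_ hRpos.le
  refine sum_le_sum_of_subset_of_nonneg ?_ ?_
  · intro i hi
    rw [mem_sdiff] at hi ⊢
    exact ⟨hi.1, fun e => hi.2 (mem_insert_of_mem e)⟩
  · intro i _ _
    exact sum_nonneg fun x _ => by positivity

end Pool.Agent.Helper9.IA38
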